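import Mathlib
import Pool.Agent.R384.Z.Van

/-!
# The Bloch–Kato Selmer groups of all conjugate self-dual representations over `ℚ(√-d)` that are
# unramified outside `2`, residually unipotent at `2`, and have separated weights, in all ranks

The fields: `F = ℚ(√-d)`, where `d` is a prime number that is `7` modulo `16`, or the product of a
prime number that is `5` modulo `8` and of a prime number that is `3` modulo `8`. The prime `2` is the
product of two places of `F`; there are infinitely many such fields, starting with `d = 7, 15, 23, 39,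
55`.

The representations: all continuous `ρ : Gal(ℚ̄/F) → GL_n(ℤ_2)`, for all `n`, that are unramified
outside `2` and such that the characteristic polynomial of every `ρ(σ)` is `(X - 1)^n` modulo `2`.
For a newform `f` of level one and of any weight `2r` the Hecke eigenvalues at the odd primes are `0`
modulo `2` (Hatada, Tate), so the `2`-adic representation of `f`, its twists by the algebraic Hecke
characters of `F` of conductor a power of `2` and of trivial reduction, and all the tensor products
and the subquotients of these, with coefficients in a finite extension `E` of `ℚ_2` (take the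
restriction of scalars to `ℚ_2`), are of this kind.

The Selmer group: if all the Hodge–Tate weights of `V = ℚ_2^n` at one place `v` of `F` above `2` are
at most `0` and `V` is pure of weight `-1`, then `H^1_f(F_v, V) = 0`. So the Bloch–Kato classes are
trivial at `v` and on the inertia groups of the odd places. If moreover `V` is conjugate self-dual,
`V^c = V^*(1)`, then the weights at the other place are at least `1`. For example
`V = V_f(r) ⊗ χ`, `χ` anticyclotomic of infinity type `(j, -j)`, is of this kind for `|j| ≥ r`.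

Theorem: for all these fields and all these representations, of all ranks, every such class is zero:
the Bloch–Kato Selmer group of `V` is zero.
-/

set_option autoImplicit false

namespace Pool.Agent.Results.MP_7c08ba_nt.AllRanksLevelTwoPower

open Matrix

/-- An algebraic closure of `ℚ`. -/
abbrev QBar : Type := AlgebraicClosure ℚ

/-- The field `ℚ(s)`. It is `ℚ(√-d)` if `s² = -d`. -/
noncomputable abbrev K (s : QBar) : IntermediateField ℚ QBar := IntermediateField.adjoin ℚ {s}

/-- The absolute Galois group of `ℚ(s)`. -/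
abbrev Gal (s : QBar) : Type := QBar ≃ₐ[K s] QBar

/-- The class of the numbers `d`: the primes `7 mod 16`, and the products of a prime `5 mod 8` and of
a prime `3 mod 8`. -/
def InClass (d : ℕ) : Prop :=
  (d.Prime ∧ d % 16 = 7) ∨ ∃ p q : ℕ, p.Prime ∧ q.Prime ∧ p % 8 = 5 ∧ q % 8 = 3 ∧ d = p * q

/-- The decomposition group of the place given by the embedding `ι` of `ℚ̄`. -/
def Dec {s : QBar} {p : ℕ} [Fact p.Prime] (ι : QBar →ₐ[ℚ] PadicAlgCl p) : Set (Gal s) :=
  {σ | ∃ τ : PadicAlgCl p ≃ₐ[ℚ_[p]] PadicAlgCl p, ∀ x, τ (ι x) = ι (σ x)}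

/-- Its inertia group: the automorphisms which are trivial on the residue field. -/
def Inr {s : QBar} {p : ℕ} [Fact p.Prime] (ι : QBar →ₐ[ℚ] PadicAlgCl p) : Set (Gal s) :=
  {σ | ∃ τ : PadicAlgCl p ≃ₐ[ℚ_[p]] PadicAlgCl p, (∀ x, τ (ι x) = ι (σ x)) ∧
    ∀ z : PadicAlgCl p, ‖z‖ ≤ 1 → ‖τ z - z‖ < 1}

/-- The representations of the Galois group of `ℚ(s)` on `ℤ_2 ^ n`. -/
abbrev Rep (s : QBar) (n : ℕ) : Type := Gal s →* GL (Fin n) ℤ_[2]

/-- The representation is continuous, unramified outside `2`, and the characteristic polynomials are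
`(X - 1) ^ n` modulo `2`. -/
structure Admissible {s : QBar} {n : ℕ} (ρ : Rep s n) : Prop where
  cont : ∀ i j, Continuous fun σ => (ρ σ : Matrix (Fin n) (Fin n) ℤ_[2]) i j
  unramified : ∀ (p : ℕ) [Fact p.Prime] (ι : QBar →ₐ[ℚ] PadicAlgCl p), p ≠ 2 →
    ∀ σ ∈ (Inr ι : Set (Gal s)), ρ σ = 1
  unipotent : ∀ σ, (ρ σ : Matrix (Fin n) (Fin n) ℤ_[2]).charpoly.map (PadicInt.toZMod (p := 2)) =
    (Polynomial.X - 1) ^ n

/-- The action of the Galois group on `V = ℚ_2 ^ n`. -/
noncomputable def act {s : QBar} {n : ℕ} (ρ : Rep s n) (σ : Gal s) (y : Fin n → ℚ_[2]) :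
    Fin n → ℚ_[2] :=
  ((ρ σ : Matrix (Fin n) (Fin n) ℤ_[2]).map (fun z : ℤ_[2] => (z : ℚ_[2]))) *ᵥ y

/-- The continuous cocycles with values in `V`. -/
structure IsCocycle {s : QBar} {n : ℕ} (ρ : Rep s n) (c : Gal s → Fin n → ℚ_[2]) : Prop where
  cont : Continuous c
  mul : ∀ σ τ, c (σ * τ) = c σ + act ρ σ (c τ)

/-- The cocycle is on the set `D` equal to a coboundary. -/
def TrivialOn {s : QBar} {n : ℕ} (ρ : Rep s n) (D : Set (Gal s)) (c : Gal s → Fin n → ℚ_[2]) :
    Prop := ∃ y, ∀ σ ∈ D, c σ = act ρ σ y - y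

/-- The Bloch–Kato conditions, for a representation which is pure of weight `-1` and whose Hodge–Tate
weights at the place above `2` that divides `(1 + s) / 2` are at most `0`. (The other place is
obtained by replacing `s` by `-s`.) -/
structure IsSelmer {s : QBar} {n : ℕ} (ρ : Rep s n) (c : Gal s → Fin n → ℚ_[2]) : Prop where
  odd : ∀ (p : ℕ) [Fact p.Prime] (ι : QBar →ₐ[ℚ] PadicAlgCl p), p ≠ 2 → TrivialOn ρ (Inr ι) c
  two : ∀ ι : QBar →ₐ[ℚ] PadicAlgCl 2, ‖ι ((1 + s) / 2)‖ < 1 → TrivialOn ρ (Dec ι) c

/-- **The Bloch–Kato Selmer groups of all ranks vanish.** -/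
theorem result : ∀ d : ℕ, InClass d → ∀ s : QBar, s ^ 2 = -(d : QBar) →
    ∀ (n : ℕ) (ρ : Rep s n), Admissible ρ → ∀ c : Gal s → Fin n → ℚ_[2],
      IsCocycle ρ c → IsSelmer ρ c → TrivialOn ρ Set.univ c := by
  intro d hd s hs n ρ hρ c hc hS
  obtain ⟨ι₀, hι₀⟩ := Pool.Agent.Z384.exists_place hs hd
  obtain ⟨y, hy⟩ := Pool.Agent.Z384.van (A := (Units.coeHom _).comp ρ) hs hd hρ.cont
    (fun p _ ι hp σ hσ => congrArg Units.val (hρ.unramified p ι hp σ hσ))
    (fun σ => Pool.Agent.Z384.pow_of_charpoly (by
      rw [Fintype.card_fin]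
      exact hρ.unipotent σ))
    hc.cont hc.mul (fun p _ ι hp => hS.odd p ι hp) ι₀ (hS.two ι₀ hι₀)
  exact ⟨y, fun σ _ => hy σ⟩

end Pool.Agent.Results.MP_7c08ba_nt.AllRanksLevelTwoPower
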