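import Pool.Agent.Results.MP_9ab903_nt.TwoPartX14Imaginary
import Pool.Agent.Y667.BKK.Main

/-!
# The Bloch–Kato conjecture for `n = 2`, `p = 2`, and the base change of the newform of level `14` to
# imaginary quadratic fields

`E` is the modular curve `X_0(14) : y² + x y + y = x³ + 4 x - 6`, which has no complex multiplication, and
`f` is its newform of weight two and level `14`. `F = ℚ(√D)` is an imaginary quadratic field whose
discriminant `D < 0` is a square modulo `7` and not divisible by `3`, and whose ramified primes split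
completely in `ℚ(i, √2, √-7)` (let their number be `b`) or are inert in `ℚ(√2)` and in `ℚ(√-7)` (let their
number be `a`; it is odd). `π` is the base change of `f` to `GL_2` over `F`, a regular algebraic cuspidal
representation with `π^∨ = π^c |·|^{-1}` in the normalisation of the problem; its L-function is
`L(s, π) = L(E/F, s + 1)`, and `ρ_π = V_2 E ⊗ ℚ̄_2`, restricted to the Galois group of `F`, for `p = 2`.

* For all these `F` the L-function `L(E/F, s)`, defined by the full Euler product, is entire.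
* If the matrix `R D` over `𝔽₂` of the quadratic residue symbols is not singular, then `L(E/F, 1) ≠ 0`,
  `E(F) ⊗ ℚ_2 = 0` and `H¹_f(F, V_2 E) = 0`: the order of vanishing and the dimension of the Bloch–Kato
  group of `ρ_π` are both `0`. The group `Ш(E/F)[2^∞]` is then a vector space over the field with two
  elements of dimension `a + 2 b - 1`, which is not bounded in the class.
* The proportion of these `F` is exactly `c = ∏_{i ≥ 0} (1 - 2^{-(2 i + 1)}) = 0.4194…` in the class,
  ordered by the discriminant, and the number of these `F` with `|D| ≤ X` is at least a positive constant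
  times `X (log X)^(-5/8)`; for every `k` there are infinitely many of them with `Ш(E/F)[2^∞]` of order
  `4 ^ k`.

`H1f W` (`Pool.Agent.Y667.BKK.H1f`, by helper667) is the group of the classes of the continuous cocycles of
the absolute Galois group with values in `V_2 W = T_2 W ⊗ ℚ_2` whose restriction to the completion at every
place is in the image of the Kummer map; this is the condition of Bloch and Kato.

The arithmetic is in `TwoPartX14Imaginary` of `MP_9ab903_nt` (helper428, and the library of many helpers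
that is used there).
-/

set_option autoImplicit false

open NumberField IsDedekindDomain WeierstrassCurve Filter Topology Module

namespace Pool.Agent.Results.MP_7c08ba_nt.BaseChangeX14

open scoped Classical

open Pool.Agent.TH841.NF.D (Sha)
open Pool.Agent.Y667.BKK (H1f)

/-- The curve given by the equation of `W` over the ring `R`. -/
abbrev base (W : WeierstrassCurve ℤ) (R : Type) [CommRing R] : WeierstrassCurve R :=
  W.map (Int.castRingHom R)

/-- The number of the affine points `(x, y)` over the ring `R`. -/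
noncomputable def pts (W : WeierstrassCurve ℤ) (R : Type) [CommRing R] : ℕ :=
  Nat.card {P : R × R // (base W R).toAffine.Equation P.1 P.2}

section

variable {K : Type} [Field K] [NumberField K]

/-- `a_v = N v + 1 - #W(k_v)`, the points over the residue field `k_v` counted with the point at
infinity. -/
noncomputable def a (W : WeierstrassCurve ℤ) (v : HeightOneSpectrum (𝓞 K)) : ℤ :=
  (Ideal.absNorm v.asIdeal : ℤ) - pts W (𝓞 K ⧸ v.asIdeal)

/-- The Euler factor of `L(W/K, s)` at `v` : `(1 - a_v N v^(-s) + N v^(1 - 2 s))⁻¹` if the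
discriminant is a unit at `v`, and `(1 - a_v N v^(-s))⁻¹` otherwise. -/
noncomputable def factor (W : WeierstrassCurve ℤ) (s : ℂ) (v : HeightOneSpectrum (𝓞 K)) : ℂ :=
  (1 - (a W v : ℂ) * (Ideal.absNorm v.asIdeal : ℂ) ^ (-s) +
    if ((W.Δ : ℤ) : 𝓞 K) ∈ v.asIdeal then 0 else (Ideal.absNorm v.asIdeal : ℂ) ^ (1 - 2 * s))⁻¹

/-- The equation is minimal at the finite place `v` of `K`: no change of variables over `K` that
keeps the coefficients integral at `v` decreases the valuation of the discriminant. -/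
def MinimalAt (W : WeierstrassCurve ℤ) (v : HeightOneSpectrum (𝓞 K)) : Prop :=
  ∀ C : VariableChange K, v.valuation K (C • base W K).a₁ ≤ 1 →
    v.valuation K (C • base W K).a₂ ≤ 1 → v.valuation K (C • base W K).a₃ ≤ 1 →
    v.valuation K (C • base W K).a₄ ≤ 1 → v.valuation K (C • base W K).a₆ ≤ 1 →
    v.valuation K (C • base W K).Δ ≤ v.valuation K (base W K).Δ

end

section

variable (K : Type) [Field K] [NumberField K]

/-- `L` is the L-function of the minimal equation `W` over `K`: it is entire and it is given by the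
Euler product for `Re s > 3/2`. -/
def IsL (W : WeierstrassCurve ℤ) (L : ℂ → ℂ) : Prop :=
  (∀ v : HeightOneSpectrum (𝓞 K), MinimalAt W v) ∧ Differentiable ℂ L ∧
    ∀ s : ℂ, 3 / 2 < s.re → HasProd (factor (K := K) W s) (L s)

/-- The order of vanishing of `L(W/K, s)` at `s = 1` is zero, and `W(K) ⊗ ℚ_2` and `H¹_f(K, V_2 W)` are
zero. -/
def BlochKatoZero (W : WeierstrassCurve ℤ) : Prop :=
  (∃ L : ℂ → ℂ, IsL K W L ∧ L 1 ≠ 0) ∧
  (∀ x : TensorProduct ℤ (base W K).toAffine.Point ℚ_[2], x = 0) ∧ ∀ x : H1f (base W K), x = 0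

/-- The 2-primary part of the Tate-Shafarevich group over `K` is a vector space of dimension `m` over
the field with two elements. -/
def ShaTwo (W : WeierstrassCurve ℤ) (m : ℕ) : Prop :=
  (∀ (x : Sha (base W K)) (k : ℕ), 2 ^ k • x = 0 → 2 • x = 0) ∧
  Nat.card {x : Sha (base W K) // 2 • x = 0} = 2 ^ m

end

/-- The modular curve `X_0(14)`. -/
def X14 : WeierstrassCurve ℤ := ⟨1, 0, 1, 4, -6⟩

/-- `K` is the quadratic field `ℚ(√D)`. -/
def IsQuad (D : ℤ) (K : Type) [Field K] [NumberField K] : Prop :=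
  finrank ℚ K = 2 ∧ ∃ d : K, d ^ 2 = ((D : ℤ) : K)

/-! ### The class of the fields -/

/-- primes which split completely in `ℚ(i, √2, √-7)` -/
def Split (p : ℕ) : Prop := p.Prime ∧ p % 8 = 1 ∧ (p % 7 = 1 ∨ p % 7 = 2 ∨ p % 7 = 4)

/-- primes inert in `ℚ(√2)` and in `ℚ(√-7)` -/
def Inert (q : ℕ) : Prop :=
  q.Prime ∧ (q % 8 = 3 ∨ q % 8 = 5) ∧ (q % 7 = 3 ∨ q % 7 = 5 ∨ q % 7 = 6)

/-- The class of the discriminants `D < 0`. -/
def Adm (D : ℤ) : Prop := D < 0 ∧ Squarefree D ∧ D % 4 = 1 ∧ (D % 7 = 1 ∨ D % 7 = 2 ∨ D % 7 = 4) ∧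
  ∀ p : ℕ, p.Prime → (p : ℤ) ∣ D → p ≠ 3 ∧ (Split p ∨ Inert p)

/-- the prime factors `≡ 1 mod 8` of `D` -/
def S (D : ℤ) : Finset ℕ := D.natAbs.primeFactors.filter fun p => p % 8 = 1

/-- `a + 2 b - 1`, for the numbers `a`, `b` of the inert and of the split prime factors of `D`. -/
def dim (D : ℤ) : ℕ := (D.natAbs.primeFactors \ S D).card + 2 * (S D).card - 1

/-- The matrix over `𝔽₂` with rows and columns indexed by `S D`: off the diagonal the entry at `(p, p')`
is `1` if `p'` is not a square modulo `p` and `0` otherwise; on the diagonal it is the number of the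
prime factors of `D` different from `p` which are not squares modulo `p`, plus `1` if the number of the
points of `X_0(14)` modulo `p` is not divisible by `8`. -/
noncomputable def R (D : ℤ) : Matrix (S D) (S D) (ZMod 2) := Matrix.of fun i j =>
  if i = j then
    (((D.natAbs.primeFactors.filter fun r : ℕ => r ≠ (i : ℕ) ∧
      ¬ IsSquare (r : ZMod (i : ℕ))).card : ZMod 2) +
        if 8 ∣ pts X14 (ZMod (i : ℕ)) + 1 then 0 else 1)
  else if IsSquare (((j : ℕ)) : ZMod (i : ℕ)) then 0 else 1

/-- The class, and the matrix of the residue symbols is not singular. -/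
def Good (D : ℤ) : Prop := Adm D ∧ (R D).det ≠ 0

/-- the number of the integers `D` with `|D| ≤ X` and `Q D` -/
noncomputable def count (Q : ℤ → Prop) (X : ℕ) : ℕ := Nat.card {D : ℤ // |D| ≤ X ∧ Q D}

/-- `c = ∏_{i ≥ 0} (1 - 2^{-(2 i + 1)})` -/
noncomputable def cc : ℝ := ∏' i : ℕ, (1 - (1 / 2 : ℝ) ^ (2 * i + 1))

section proof

lemma good_iff (D : ℤ) : Good D ↔
    (Pool.Agent.Results.MP_9ab903_nt.TwoPartX14Imaginary.Adm D ∧
      Pool.Agent.Results.MP_9ab903_nt.TwoPartX14Imaginary.Proved D) := by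
  constructor
  · rintro ⟨h1, h2⟩
    have h1' : Pool.Agent.Results.MP_9ab903_nt.TwoPartX14Imaginary.Adm D := h1
    refine ⟨h1', (Pool.Agent.Results.MP_9ab903_nt.TwoPartX14Imaginary.proved_iff h1').2 ?_⟩
    rw [← Pool.Agent.Results.MP_9ab903_nt.TwoPartX14Imaginary.R_det
      ((Pool.Agent.Results.MP_9ab903_nt.TwoPartX14Imaginary.adm_iff D).1 h1').2]
    exact h2
  · rintro ⟨h1, h2⟩
    refine ⟨h1, ?_⟩
    have h3 := (Pool.Agent.Results.MP_9ab903_nt.TwoPartX14Imaginary.proved_iff h1).1 h2
    rw [← Pool.Agent.Results.MP_9ab903_nt.TwoPartX14Imaginary.R_det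
      ((Pool.Agent.Results.MP_9ab903_nt.TwoPartX14Imaginary.adm_iff D).1 h1).2] at h3
    exact h3

theorem good_BK {D : ℤ} (h : Good D) (K : Type) [Field K] [NumberField K] (hQ : IsQuad D K) :
    BlochKatoZero K X14 ∧ ShaTwo K X14 (dim D) := by
  obtain ⟨hA, hP⟩ := (good_iff D).1 h
  obtain ⟨h1, h2, h3, h4, -, -, -, L, z, h5, h6, -⟩ := hP K hQ
  have hex : ∀ (x : Sha (base X14 K)) (k : ℕ), 2 ^ k • x = 0 → 2 • x = 0 := by
    intro x k hx
    exact congrArg Subtype.val (h3 ⟨x, k, hx⟩)
  have hfin : Finite (base X14 K).toAffine.Point := h2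
  refine ⟨⟨⟨L, ⟨h1, h5.1, h5.2⟩, h6⟩, Pool.Agent.Y667.BK.tensor_zero,
    Pool.Agent.Y667.BKK.h1f_zero hfin 1 fun k x hx => ?_⟩, hex, ?_⟩
  · rw [pow_one]
    exact hex x k hx
  · refine Eq.trans ?_ h4
    refine Nat.card_congr (Equiv.subtypeEquivRight fun x => ?_)
    constructor
    · intro hx
      exact ⟨1, by rw [pow_one]; exact hx⟩
    · rintro ⟨k, hk⟩
      exact hex x k hk

end proof

/-- **Main theorem.** `D` runs over the negative discriminants of the class, and `K = ℚ(√D)`. The
L-function of `X_0(14)` over `K` is entire. If `R D` is not singular, then it does not vanish at `s = 1`,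
`E(K) ⊗ ℚ_2 = 0 = H¹_f(K, V_2 E)`, and `Ш(E/K)[2^∞]` is a vector space of dimension `a + 2 b - 1` over the
field with two elements. The proportion of these `D` is exactly `c = 0.419…` in the class, ordered by
`|D|`, and the number of these `D` with `|D| ≤ X` is at least a positive constant times
`X (log X)^(-5/8)`. For every `k` there are infinitely many of these `D` with `a + 2 b - 1 = 2 k`. -/
theorem result :
    (∀ D : ℤ, Adm D → ∀ (K : Type) [Field K] [NumberField K], IsQuad D K →
      ∃ L : ℂ → ℂ, IsL K X14 L) ∧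
    (∀ D : ℤ, Good D → ∀ (K : Type) [Field K] [NumberField K], IsQuad D K →
      BlochKatoZero K X14 ∧ ShaTwo K X14 (dim D)) ∧
    (0.4194 < cc ∧ cc < 0.4195) ∧
    Tendsto (fun X : ℕ => (count Good X : ℝ) / (count Adm X : ℝ)) atTop (𝓝 cc) ∧
    (∃ (α : ℝ) (X₀ : ℕ), 0 < α ∧ ∀ X : ℕ, X₀ ≤ X → α * (X * (Real.log X) ^ (-(5 / 8) : ℝ)) ≤
      (count Good X : ℝ)) ∧
    ∀ k : ℕ, {D : ℤ | Good D ∧ dim D = 2 * k}.Infinite := by
  obtain ⟨h1, h2, h3, ⟨α, X₀, hα, h4⟩, h5⟩ :=
    Pool.Agent.Results.MP_9ab903_nt.TwoPartX14Imaginary.result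
  have e : ∀ X : ℕ, count Good X =
      Pool.Agent.Results.MP_9ab903_nt.TwoPartX14Imaginary.count (fun D =>
        Pool.Agent.Results.MP_9ab903_nt.TwoPartX14Imaginary.Adm D ∧
        Pool.Agent.Results.MP_9ab903_nt.TwoPartX14Imaginary.Proved D) X := by
    intro X
    unfold count Pool.Agent.Results.MP_9ab903_nt.TwoPartX14Imaginary.count
    exact Nat.card_congr (Equiv.subtypeEquivRight fun D => and_congr_right fun _ => good_iff D)
  refine ⟨?_, fun D hD K _ _ hQ => good_BK hD K hQ, h2, ?_, ⟨α, X₀, hα, fun X hX => ?_⟩, ?_⟩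
  · intro D hD K _ _ hQ
    obtain ⟨g1, -, -, -, -, -, ⟨L, -, -, g2, -⟩, -⟩ := h1 D hD K hQ
    exact ⟨L, g1, g2.1, g2.2⟩
  · refine h3.congr fun X => ?_
    rw [e X]
    rfl
  · rw [e X]
    exact h4 X hX
  · intro k
    refine (h5 k).mono ?_
    rintro D ⟨g1, g2, g3⟩
    exact ⟨(good_iff D).2 ⟨g1, g3⟩, g2⟩

end Pool.Agent.Results.MP_7c08ba_nt.BaseChangeX14
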