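import Mathlib
import Pool.Agent.R419.BK.Fin
import Pool.Agent.R419.CF.Low

/-!
# The Bloch–Kato conjecture for `n = 1`, `F = ℚ(√-3)`, `p = 3` and exactly 56 percent of all the
cubic twists `x³ + y³ = N` with one prime `≡ 2` mod `3`

`K = ℚ(√-3)`, and `N` runs over all the cube-free numbers `N = a b²` prime to `3`, not `±1` modulo
`9`, with exactly one prime factor `≡ 2` modulo `3`.  `E_N : y² + D y = x³`, where `D = ±N` is `1`
modulo `3`, is an elliptic curve over `ℚ` with complex multiplication by the integers of `K`.  Its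
Hecke character `ψ_N` of `K` maps the prime `(α)`, `α = 1` modulo `3` prime to `N`, to `α` times the
inverse of the cubic residue symbol `(D / α)_3`.  It is an algebraic Hecke character
`π = ψ_N |·|^{1/2}`-normalised as in the problem (`n = 1`; `ψ_N(ᾱ) = \overline{ψ_N(α)}` because `N` is
in `ℤ`, so `π` is conjugate self-dual), the centre of the L-function is the point `1` below, and
`V_3 E_N ⊗ ℚ̄_3` is the sum of `ρ_π` and of its conjugate as a representation of the Galois group of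
`K`.

* For all these `N` the L-function `L(ψ_N, s)` is entire.
* If `N` has no splitting `d₀ d₁ d₂` (a condition on cubic residues between its prime factors), then
  `L(ψ_N, 1) ≠ 0`, and `E_N(K) ⊗ ℚ_3 = 0 = H¹_f(K, V_3 E_N)`: the order of vanishing and the dimension
  of the Bloch–Kato group of `ρ_π` are both `0`.
* The proportion of the `N` without a splitting tends exactly to
  `∏_{i ≥ 1} (1 - 3^{-i}) = 0.5601...`.

`H1f 3 W` (`Pool.Agent.Y667.BKP.H1f`, by helper667) is the group of the classes of the continuous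
cocycles of the absolute Galois group with values in `V_3 W = T_3 W ⊗ ℚ_3` whose restriction to the
completion at every place is in the image of the Kummer map; this is the condition of Bloch and Kato.

The arithmetic and the squarefree case are joint work of about forty agents, see
`Pool/Agent/Y703/CT/*.lean` and `Pool/Agent/Y703/CX/*.lean`; the cube-free case is
`Pool/Agent/R419/CF/*.lean`, `Pool/Agent/R419/KF/*.lean` and `Pool/Agent/R419/BK/*.lean`
(helper419).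
-/

set_option autoImplicit false

open scoped Classical

namespace Pool.Agent.Results.MP_7c08ba_nt.CubicTwistsCubeFree

open NumberField IsDedekindDomain WeierstrassCurve
open Pool.Agent.Y667.BKP (H1f)

/-- the class: `N` cube-free, prime to `3`, not `±1` modulo `9`, exactly one prime factor
congruent to `2` modulo `3` -/
def InClass (N : ℕ) : Prop :=
  N ≠ 0 ∧ (∀ p : ℕ, p.Prime → ¬ p ^ 3 ∣ N) ∧ ¬ 3 ∣ N ∧ N % 9 ≠ 1 ∧ N % 9 ≠ 8 ∧
    ∃ q : ℕ, q.Prime ∧ q % 3 = 2 ∧ q ∣ N ∧ ∀ p : ℕ, p.Prime → p ∣ N → p ≠ q → p % 3 = 1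

/-- `N` is not a product `d₀ d₁ d₂` of coprime factors, at least two of them different from `1`,
such that `d₁ d₂²`, `d₂ d₀²`, `d₀ d₁²` are cubes modulo the primes dividing `d₀`, `d₁`, `d₂` -/
def NoSplit (N : ℕ) : Prop :=
  ∀ d : ZMod 3 → ℕ, ∏ c, d c = N → (∀ c c', c ≠ c' → Nat.Coprime (d c) (d c')) →
    (∀ (c : ZMod 3) (p : ℕ), p.Prime → p ∣ d c →
      ∃ x : ℤ, (p : ℤ) ∣ (d (c + 1) : ℤ) * (d (c + 2) : ℤ) ^ 2 - x ^ 3) →
    ∃ c, ∀ c', c' ≠ c → d c' = 1

/-- the one of `N` and `-N` which is `1` modulo `3` (if `3` does not divide `N`) -/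
def signed (N : ℕ) : ℤ := if N % 3 = 1 then (N : ℤ) else -(N : ℤ)

variable {K : Type} [Field K] [NumberField K]

/-- `z` is the value at the prime `P` of the Hecke character of `y² + D y = x³` (for the complex
embedding `σ` of `K`): it is `0` if `P` divides `3 D`; otherwise `z = α (D / α)_3⁻¹`, where `α = 1`
modulo `3` is the generator of `P`, and the cubic residue symbol `(D / α)_3` is the third root of unity
`ω ^ c` with `D ^ ((N(P) - 1) / 3) = ω ^ c` modulo `P`. -/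
def IsValue (σ : K →+* ℂ) (D : 𝓞 K) (P : HeightOneSpectrum (𝓞 K)) (z : ℂ) : Prop :=
  (3 * D ∈ P.asIdeal → z = 0) ∧
  (3 * D ∉ P.asIdeal → ∃ (ω α : 𝓞 K) (c : ℕ), ω ^ 2 + ω + 1 = 0 ∧ P.asIdeal = Ideal.span {α} ∧
    (3 : 𝓞 K) ∣ α - 1 ∧ α ∣ D ^ ((Nat.card (𝓞 K ⧸ P.asIdeal) - 1) / 3) - ω ^ c ∧
    z * σ (ω : K) ^ c = σ (α : K))

/-- `L` is the L-function of the Hecke character of `y² + D y = x³`: it is entire, and equal to
`∏ (1 - z_P N(P)^(-s))⁻¹` for `Re s > 3/2`. -/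
def IsL (σ : K →+* ℂ) (D : 𝓞 K) (L : ℂ → ℂ) : Prop :=
  Differentiable ℂ L ∧ ∃ z : HeightOneSpectrum (𝓞 K) → ℂ, (∀ P, IsValue σ D P (z P)) ∧
    ∀ s : ℂ, 3 / 2 < s.re →
      HasProd (fun P : HeightOneSpectrum (𝓞 K) =>
        (1 - z P * (Nat.card (𝓞 K ⧸ P.asIdeal) : ℂ) ^ (-s))⁻¹) (L s)

/-- The curve `y² + D y = x³`. -/
def curve {F : Type} [Field F] (D : F) : WeierstrassCurve F := ⟨0, 0, D, 0, 0⟩

/-- `W` is an elliptic curve, and `W(F) ⊗ ℚ_3` and `H¹_f(F, V_3 W)` are zero. -/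
def BothZero {F : Type} [Field F] [NumberField F] (W : WeierstrassCurve F) : Prop :=
  W.IsElliptic ∧ (∀ x : TensorProduct ℤ W.toAffine.Point ℚ_[3], x = 0) ∧ ∀ x : H1f 3 W, x = 0

/-- The L-function of `ψ_N` is not zero at the centre `1`, and `H¹_f(K, V_3 E_N) = 0`. -/
def BlochKato (σ : K →+* ℂ) (N : ℕ) : Prop :=
  (∃ L : ℂ → ℂ, IsL σ (signed N : 𝓞 K) L ∧ L 1 ≠ 0) ∧ BothZero (curve (signed N : K))

theorem class_iff (D : ℕ) : InClass D ↔ Pool.Agent.Y703.CT.Cls D := by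
  unfold InClass Pool.Agent.Y703.CT.Cls Pool.Agent.Y703.CT.Base
  constructor
  · rintro ⟨h1, h2, h3, h4, h5, h6⟩
    exact ⟨⟨h1, h3, h2⟩, h4, h5, h6⟩
  · rintro ⟨⟨h1, h3, h2⟩, h4, h5, h6⟩
    exact ⟨h1, h2, h3, h4, h5, h6⟩

theorem result (K : Type) [Field K] [NumberField K] [IsCyclotomicExtension {3} ℚ K] :
    (∃ c : ℝ, 0 < c ∧ ∃ X₀ : ℕ, ∀ X : ℕ, X₀ ≤ X →
      c * X / Real.sqrt (Real.log X) ≤ (((Finset.Icc 1 X).filter fun N => InClass N).card : ℝ)) ∧
    (∃ σ : K →+* ℂ, ∀ N : ℕ, InClass N →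
      (∃ L : ℂ → ℂ, IsL σ (signed N : 𝓞 K) L) ∧ (NoSplit N → BlochKato σ N)) ∧
    (0.56 : ℝ) < ∏' i : ℕ, (1 - (1 / 3 : ℝ) ^ (i + 1)) ∧
    Filter.Tendsto (fun X : ℕ =>
        (((Finset.Icc 1 X).filter fun N => InClass N ∧ NoSplit N).card : ℝ) /
        (((Finset.Icc 1 X).filter fun N => InClass N).card : ℝ)) Filter.atTop
      (nhds (∏' i : ℕ, (1 - (1 / 3 : ℝ) ^ (i + 1)))) := by
  have e1 : ∀ X : ℕ, (Finset.Icc 1 X).filter (fun N => InClass N ∧ NoSplit N) =
      (Finset.Icc 1 X).filter fun N => Pool.Agent.Y703.CT.Cls N ∧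
        Pool.Agent.Y703.CT.NoSplit N := by
    intro X
    refine Finset.filter_congr fun N _ => ?_
    rw [← class_iff]
    exact Iff.rfl
  have e2 : ∀ X : ℕ, (Finset.Icc 1 X).filter (fun N => InClass N) =
      (Finset.Icc 1 X).filter fun N => Pool.Agent.Y703.CT.Cls N := by
    intro X
    refine Finset.filter_congr fun N _ => ?_
    rw [class_iff]
  refine ⟨?_, ?_, Pool.Agent.Y461.CX.t_C3.2.2.2, ?_⟩
  · simp only [e2]
    exact Pool.Agent.R419.CF.low
  · obtain ⟨⟨j, hj⟩, -⟩ := Pool.Agent.Y455.CTK.jex K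
    refine ⟨Pool.Agent.R419.BK.emb j, fun N hN => ?_⟩
    obtain ⟨⟨L, h1, h2⟩, h3⟩ := Pool.Agent.R419.BK.final (K := K) j ((class_iff N).1 hN)
    exact ⟨⟨L, h1⟩, fun hs => ⟨⟨L, h1, h2 hs⟩, h3 hs⟩⟩
  · have h := Pool.Agent.R419.CF.t_FIN
    unfold Pool.Agent.Y703.CX.c3 at h
    simp only [e1, e2]
    exact h

end Pool.Agent.Results.MP_7c08ba_nt.CubicTwistsCubeFree
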