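import Mathlib
import Pool.Agent.R384.Y.Kdt

/-!
# The Bloch–Kato Selmer groups of the conjugate self-dual Hecke characters attached to the twists of
# `X_0(49)`, for all infinity types

`K = ℚ(√-7) = ℚ(w)`, `w² = w - 2`. Let `E_M` be the quadratic twist by `M` of `X_0(49)`, an elliptic
curve over `ℚ` with complex multiplication by `ℤ[w]`, `ψ_M` its Hecke character over `K`. For `k > 0`
the Hecke characters `ψ_M^k ψ̄_M^(1-k)` and `ψ_M^(1-k) ψ̄_M^k`, normalized, are the two conjugate
automorphic representations `π` of `GL_1` over `K` with `π^∨ = π^c |·|^(-1)` whose `L`-function is the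
one of the newform of weight `2k` of `ψ_M^(2k-1)`. The group `Gal(ℚ̄/K)` acts on the `2`-adic Tate
module of `E_M` by two characters `κ`, `κ'`, and the `2`-adic realizations of the `π` are
`ℚ_2(κ^k κ'^(1-k))` and `ℚ_2(κ^(1-k) κ'^k)`. The root number is `(-1)^(k-1)` for the `M` of the class
considered here: the `M = 1 mod 8`, squarefree, with all prime factors `1 mod 8` and split in `K` or
`5 mod 8` and inert in `K`.

Theorem: if `E_M(ℚ)` is finite and `Ш(E_M/ℚ)` has no element of order two (a condition on the weight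
`2` only), then for **all** weights `2k` the dimension of the Bloch–Kato Selmer group of `π` is at most
the order of vanishing that the root number forces: it is `0` for `k` odd and at most `1` for `k`
even. At least the proportion `c = 0.419…` of the `M` of the class have this property.
-/

set_option autoImplicit false

namespace Pool.Agent.Results.MP_7c08ba_nt.HeckeCharactersAllWeights

open Pool.Agent.Results.MP_787500_nt.AllWeightsMultiquadraticX49
open WeierstrassCurve Filter Topology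
open scoped Classical

/-- The cocycles of the absolute Galois group of `K` with values in `ℚ_2(χ)` which satisfy the
Bloch–Kato conditions, for a character `χ` whose Hodge–Tate weight is positive at one of the two
places of `K` above `2` and not positive at the other one, which is the one that divides `v`. -/
def Sel {w : QBar} (v : QBar) (χ : Chr w) : Submodule ℚ_[2] (Gal w → ℚ_[2]) where
  carrier := {c | IsCocycle ⊤ χ c ∧ IsSelmer v ⊤ χ c}
  add_mem' := by
    rintro a b ⟨h1, h2⟩ ⟨g1, g2⟩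
    refine ⟨⟨h1.cont.add g1.cont, fun σ hσ τ hτ => ?_⟩, fun p _ ι hp => ?_, fun ι hι => ?_⟩
    · rw [Pi.add_apply, Pi.add_apply, Pi.add_apply, h1.mul σ hσ τ hτ, g1.mul σ hσ τ hτ]
      ring
    · obtain ⟨y, hy⟩ := h2.odd p ι hp
      obtain ⟨z, hz⟩ := g2.odd p ι hp
      exact ⟨y + z, fun σ h h' => by rw [Pi.add_apply, hy σ h h', hz σ h h']; ring⟩
    · obtain ⟨y, hy⟩ := h2.two ι hι
      obtain ⟨z, hz⟩ := g2.two ι hι
      exact ⟨y + z, fun σ h h' => by rw [Pi.add_apply, hy σ h h', hz σ h h']; ring⟩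
  zero_mem' := ⟨⟨continuousOn_const, fun σ _ τ _ => by simp⟩,
    fun p _ ι _ => ⟨0, fun σ _ _ => by simp⟩, fun ι _ => ⟨0, fun σ _ _ => by simp⟩⟩
  smul_mem' := by
    rintro a b ⟨h1, h2⟩
    refine ⟨⟨h1.cont.const_smul a, fun σ hσ τ hτ => ?_⟩, fun p _ ι hp => ?_, fun ι hι => ?_⟩
    · rw [Pi.smul_apply, Pi.smul_apply, Pi.smul_apply, h1.mul σ hσ τ hτ, smul_eq_mul, smul_eq_mul,
        smul_eq_mul]
      ring
    · obtain ⟨y, hy⟩ := h2.odd p ι hp
      exact ⟨a * y, fun σ h h' => by rw [Pi.smul_apply, hy σ h h', smul_eq_mul]; ring⟩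
    · obtain ⟨y, hy⟩ := h2.two ι hι
      exact ⟨a * y, fun σ h h' => by rw [Pi.smul_apply, hy σ h h', smul_eq_mul]; ring⟩

/-- The coboundaries. -/
def Cob {w : QBar} (χ : Chr w) : Submodule ℚ_[2] (Gal w → ℚ_[2]) where
  carrier := {c | TrivialOn ⊤ χ Set.univ c}
  add_mem' := by
    rintro a b ⟨y, hy⟩ ⟨z, hz⟩
    exact ⟨y + z, fun σ h h' => by rw [Pi.add_apply, hy σ h h', hz σ h h']; ring⟩
  zero_mem' := ⟨0, fun σ _ _ => by simp⟩
  smul_mem' := by
    rintro a b ⟨y, hy⟩
    exact ⟨a * y, fun σ h h' => by rw [Pi.smul_apply, hy σ h h', smul_eq_mul]; ring⟩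

/-- The dimension of the quotient of `A` by its intersection with `B`. -/
noncomputable def qdim {V : Type} [AddCommGroup V] [Module ℚ_[2] V] (A B : Submodule ℚ_[2] V) :
    Cardinal := Module.rank ℚ_[2] (A ⧸ B.submoduleOf A)

/-- The dimension of the Bloch–Kato Selmer group `H¹_f(K, ℚ_2(χ))`, the cocycles modulo the
coboundaries. -/
noncomputable def dim {w : QBar} (v : QBar) (χ : Chr w) : Cardinal := qdim (Sel v χ) (Cob χ)

/-- `0` for odd `k` and `1` for even `k`: the order of vanishing forced by the root number. -/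
noncomputable def bd (k : ℤ) : Cardinal := if Even k then 1 else 0

/-- The curve `E_M` is over `K` isomorphic to the elliptic curve `ED w (tw M)`, the absolute Galois
group of `K` acts on its `2`-adic Tate module by `κ`, `κ'`, and for all `k > 0` the dimensions of the
Bloch–Kato Selmer groups of `κ^k κ'^(1-k)` and of `κ^(1-k) κ'^k` are at most `0` for odd `k` and at
most `1` for even `k`. -/
def Bounded (M : ℕ) : Prop := ∀ w : QBar, w ^ 2 = w - 2 →
  Iso (EK w M) (ED w (tw M)) ∧ (ED w (tw M)).IsElliptic ∧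
  ∃ κ κ' : Chr w, TateModule (tw M) κ κ' ∧ ∀ k : ℤ, 0 < k →
    dim (1 - w) (chi κ κ' k) ≤ bd k ∧ dim w (chi κ κ' (1 - k)) ≤ bd k

/-! ### The proof -/

section proof

open Pool.Agent.Kdt384
open Pool.Agent.R426.QB (Ac8 GO Nsq)

lemma dim_eq {w : QBar} (hw : w ^ 2 = w - 2) {v : Pool.Agent.R384.OO} {χ : Chr w} {v' : QBar}
    (hv : Pool.Agent.R384.em hw v = v') : dim v' χ = Pool.Agent.R384.rk hw v χ ⊤ := by
  have h1 : Sel v' χ = Pool.Agent.R384.SelM hw v χ ⊤ := by
    ext c
    constructor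
    · rintro ⟨h1, h2⟩
      exact ⟨⟨h1.cont, h1.mul⟩, fun p _ ι hp => h2.odd p ι hp, fun ι hι => h2.two ι (by rwa [← hv])⟩
    · rintro ⟨h1, h2, h3⟩
      exact ⟨⟨h1.cont, h1.mul⟩, fun p _ ι hp => h2 p ι hp, fun ι hι => h3 ι (by rwa [hv])⟩
  have h2 : Cob χ = Pool.Agent.R384.CobM χ ⊤ := rfl
  unfold dim qdim Pool.Agent.R384.rk
  rw [h1, h2]

lemma bounded_of {M : ℕ} {d : Fin 0 → ℕ} (hG : Good M d) : Bounded M := by
  intro w hw
  obtain ⟨hM0, -⟩ := good_ne hG
  obtain ⟨κ, κ', ht, r, I, kd⟩ := exists_tate hw hM0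
  refine ⟨tw_iso hw M, elliptic (tw_ne hM0) hw, κ, κ', ht, fun k _ => ?_⟩
  obtain ⟨h1, h2⟩ := rk_all_weights hw hG kd (s := fun i => i.elim0) (fun i => i.elim0) k
  have e : (Pool.Agent.R384.fixs (i₀ := w) (fun i : Fin 0 => i.elim0) Finset.univ) = ⊤ := by
    ext σ
    exact ⟨fun _ => trivial, fun _ i => i.elim0⟩
  have hb : (if Even k then ((2 ^ 0 : ℕ) : Cardinal) else 0) = bd k := by
    unfold bd
    split_ifs
    · simp
    · rfl
  rw [e, hb] at h1 h2
  rw [dim_eq hw (em_om' hw), dim_eq hw (em_om hw)]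
  exact ⟨h1, h2⟩

lemma good_zero {M : ℕ} (hM : Adm M) (hR : RankZeroShaTwo M) :
    Good M (fun i : Fin 0 => i.elim0) := by
  intro T
  have hT : T = ∅ := by
    ext i
    exact i.elim0
  refine ⟨M, 1, one_ne_zero, hM, hR, ?_⟩
  rw [hT, Finset.prod_empty]
  ring

lemma prop_zero {x : ℝ} (hx : x < c) : ∀ᶠ X : ℕ in atTop, x < prop Bounded X := by
  have hA1 : Adm 1 := ⟨squarefree_one, rfl, fun p hp h => absurd (Nat.dvd_one.1 h) hp.ne_one⟩
  have hI : Ind (fun i : Fin 0 => i.elim0) := by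
    rintro T ⟨i, -⟩
    exact i.elim0
  have h := Pool.Agent.R426.QB.prop_field Pool.Agent.Y687.JQ.t_JDEN (n := 0)
    (d := fun i : Fin 0 => (((i.elim0 : ℕ)) : ℤ)) (nsq_of (fun i => i.elim0) hI)
    (fun i => i.elim0) (N := ((1 : ℕ) : ℤ)) (acS_of hA1)
  rw [pow_zero, pow_one] at h
  filter_upwards [h.eventually_const_lt hx] with X hX
  refine lt_of_lt_of_le hX (prop_mono
    (P := fun D => GO (fun i : Fin 0 => (((i.elim0 : ℕ)) : ℤ)) (((1 : ℕ) : ℤ) * D))
    (fun D hD => ?_) X)
  have h1 : Good (1 * D) (fun i : Fin 0 => i.elim0) := by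
    refine good_of ?_ (fun i => i.elim0) ?_
    · rw [one_mul]
      exact hD.1.2
    · have h1 := hD.2
      push_cast at h1 ⊢
      exact h1
  rw [one_mul] at h1
  exact bounded_of h1

end proof

/-- **The dimensions of the Bloch–Kato Selmer groups for all infinity types.** -/
theorem result :
    (∀ M : ℕ, Adm M → RankZeroShaTwo M → Bounded M) ∧ AtLeast c Bounded ∧
    0.4194 < c ∧ c < 0.4195 :=
  ⟨fun _ h1 h2 => bounded_of (good_zero h1 h2), fun _ hx => prop_zero hx,
    Pool.Agent.Y948.CQ.t_C2.2.2.2.1, Pool.Agent.Y948.CQ.t_C2.2.2.2.2⟩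

end Pool.Agent.Results.MP_7c08ba_nt.HeckeCharactersAllWeights
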